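import Pool.Agent.H7.Per.End

/-!
# Per Main: periodic holomorphic maps into projective space with short circles are rational in the exponential

`exists_rational`: let `f : ℂ → ℙ^N` be holomorphic with period `2 π i k`, and let the images of the vertical segments of length `2 π k` at `Re z = s` be small for
`|s| → ∞`.  Then there are polynomials `q_i` such that `f z = [q_0 (w) : ... : q_N (w)]`, `w = exp (z / k)`, for all `z`.
-/

set_option autoImplicit false

open Topology Filter Metric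

noncomputable section

namespace Pool.Agent.H7.Per

open Pool.Agent.H17 (PN VanishesAt HolomorphicInto vanishesAt_mk_iff)
open Pool.Agent.H36.BP (EN)
open Pool.Agent.H62.EF (MN pr)

variable {N : ℕ}

/-- the period as a real multiple of `i` -/
def per (k : ℕ) : ℝ := 2 * Real.pi * k

theorem per_pos {k : ℕ} (hk : 0 < k) : 0 < per k := by
  have h1 : (0 : ℝ) < k := by exact_mod_cast hk
  have h2 := Real.pi_pos
  unfold per
  positivity

/-- branches of the logarithm -/
theorem exists_branch {k : ℕ} {u v : ℂ} (h : Complex.exp u = Complex.exp v) : ∃ n : ℤ, (k : ℂ) * u = k * v + n * ((per k : ℂ) * Complex.I) := by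
  obtain ⟨n, hn⟩ := Complex.exp_eq_exp_iff_exists_int.1 h
  refine ⟨n, ?_⟩
  rw [hn]
  unfold per
  push_cast
  ring

section

variable {f : ℂ → PN N} {k : ℕ}

theorem f_branch (hper : ∀ z, f (z + (per k : ℂ) * Complex.I) = f z) {u v : ℂ} (h : Complex.exp u = Complex.exp v) :
    f (k * u) = f (k * v) := by
  obtain ⟨n, hn⟩ := exists_branch (k := k) h
  have hP : Function.Periodic f ((per k : ℂ) * Complex.I) := hper
  rw [hn]
  exact hP.int_mul n _

theorem f_log (hper : ∀ z, f (z + (per k : ℂ) * Complex.I) = f z) {w w₀ : ℂ} (hw : w ≠ 0) (hw₀ : w₀ ≠ 0) :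
    f (k * Complex.log w) = f (k * (Complex.log (w / w₀) + Complex.log w₀)) := by
  refine f_branch hper ?_
  rw [Complex.exp_log hw, Complex.exp_add, Complex.exp_log (div_ne_zero hw hw₀), Complex.exp_log hw₀, div_mul_cancel₀ _ hw₀]

/-- the branch of `k log w` near `w₀` -/
theorem analyticAt_branch {k : ℕ} {w₀ : ℂ} (hw₀ : w₀ ≠ 0) :
    AnalyticAt ℂ (fun w => (k : ℂ) * (Complex.log (w / w₀) + Complex.log w₀)) w₀ := by
  have h1 : AnalyticAt ℂ (fun w : ℂ => w / w₀) w₀ := analyticAt_id.div_const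
  have h2 : AnalyticAt ℂ (fun w : ℂ => Complex.log (w / w₀)) w₀ := by
    refine h1.clog ?_
    rw [div_self hw₀]
    exact Complex.one_mem_slitPlane
  exact analyticAt_const.mul (h2.add analyticAt_const)

theorem branch_self {k : ℕ} {w₀ : ℂ} (hw₀ : w₀ ≠ 0) :
    (k : ℂ) * (Complex.log (w₀ / w₀) + Complex.log w₀) = k * Complex.log w₀ := by
  rw [div_self hw₀, Complex.log_one, zero_add]

/-- **Extension over the end.** -/
theorem exists_end (hf : HolomorphicInto f Set.univ) (hk : 0 < k) (hper : ∀ z, f (z + (per k : ℂ) * Complex.I) = f z)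
    (hs : ∀ ε > 0, ∃ X : ℝ, ∀ z z' : ℂ, z.re ≤ -X → z'.re = z.re → |z'.im - z.im| ≤ per k → dist (prP (f z)) (prP (f z')) ≤ ε) :
    ∃ S : ℂ → Fin (N + 1) → ℂ, AnalyticAt ℂ S 0 ∧ S 0 ≠ 0 ∧
      ∀ᶠ w in 𝓝[≠] (0 : ℂ), ∃ h : S w ≠ 0, f (k * Complex.log w) = Projectivization.mk ℂ (S w) h := by
  obtain ⟨j, s₀, c, hc, hb⟩ := exists_coord_end hf (per_pos hk) hper hs
  have hkr : (0 : ℝ) < k := by exact_mod_cast hk
  have hne : ∀ z, (WithLp.toLp 2 (f z).rep : EN N) ≠ 0 := fun z => toLp_ne (f z).rep_nonzero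
  have hrep : ∀ z : ℂ, z.re ≤ s₀ → (f z).rep j ≠ 0 := by
    intro z hz h0
    have h1 := hb z hz
    have h2 : ‖prP (f z) (j, j)‖ = 0 := by
      change ‖pr (WithLp.toLp 2 (f z).rep) (j, j)‖ = 0
      rw [norm_diag]
      change ‖(f z).rep j‖ ^ 2 / _ = 0
      rw [h0, norm_zero]
      ring
    rw [h2] at h1
    linarith
  set ρ : ℝ := Real.exp (s₀ / k) with hρ
  have hρ0 : 0 < ρ := Real.exp_pos _
  have hre : ∀ w : ℂ, w ≠ 0 → ‖w‖ < ρ → ((k : ℂ) * Complex.log w).re < s₀ := by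
    intro w hw hwρ
    have h1 : ((k : ℂ) * Complex.log w).re = k * Real.log ‖w‖ := by
      rw [← Complex.ofReal_natCast, Complex.re_ofReal_mul, Complex.log_re]
    rw [h1]
    have h2 : Real.log ‖w‖ < s₀ / k := by
      rw [Real.log_lt_iff_lt_exp (norm_pos_iff.2 hw)]
      exact hwρ
    rw [lt_div_iff₀ hkr] at h2
    linarith
  set H : ℂ → EN N := fun w => rat j (prP (f (k * Complex.log w))) with hH
  have hd : DifferentiableOn ℂ H (ball 0 ρ \ {0}) := by
    intro w₀ hw₀
    have hw₀0 : w₀ ≠ 0 := hw₀.2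
    have h1 : DifferentiableAt ℂ (fun w => rat j (prP (f (k * (Complex.log (w / w₀) + Complex.log w₀))))) w₀ := by
      have h2 := differentiableAt_rat hf (Set.mem_univ ((k : ℂ) * Complex.log w₀)) (hrep _ (hre w₀ hw₀0 (by
        rw [← mem_ball_zero_iff]
        exact hw₀.1)).le)
      rw [← branch_self hw₀0] at h2
      exact DifferentiableAt.comp (g := fun z => rat j (prP (f z))) w₀ h2 (analyticAt_branch hw₀0).differentiableAt
    refine DifferentiableAt.differentiableWithinAt (h1.congr_of_eventuallyEq ?_)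
    filter_upwards [isOpen_ne.mem_nhds hw₀0] with w hw
    change rat j (prP (f (k * Complex.log w))) = _
    rw [f_log hper hw hw₀0]
  have hbd : BddAbove (norm ∘ H '' (ball 0 ρ \ {0})) := by
    refine ⟨c⁻¹ + 1, ?_⟩
    rintro _ ⟨w, hw, rfl⟩
    have h1 := hre w hw.2 (by rw [← mem_ball_zero_iff]; exact hw.1)
    have h2 : ‖H w‖ ^ 2 = _ := norm_rat (hne (k * Complex.log w)) (hrep _ h1.le)
    have h3 := hb _ h1.le
    have h4 : ‖H w‖ ^ 2 ≤ c⁻¹ := by
      rw [h2]
      exact inv_anti₀ hc h3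
    change ‖H w‖ ≤ _
    nlinarith [norm_nonneg (H w)]
  have hu := Complex.differentiableOn_update_limUnder_of_bddAbove (ball_mem_nhds (0 : ℂ) hρ0) hd hbd
  set R : ℂ → EN N := Function.update H 0 (limUnder (𝓝[≠] 0) H) with hR
  have hRa : AnalyticAt ℂ R 0 := hu.analyticAt (ball_mem_nhds (0 : ℂ) hρ0)
  have hRH : ∀ w, w ≠ 0 → R w = H w := fun w hw => Function.update_of_ne hw _ _
  have hRj : ∀ᶠ w in 𝓝[≠] (0 : ℂ), R w j = 1 := by
    have h4 : ball (0 : ℂ) ρ \ {0} ∈ 𝓝[≠] (0 : ℂ) := sdiff_mem_nhdsWithin_compl (ball_mem_nhds _ hρ0) _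
    filter_upwards [h4] with w hw
    have h1 := hre w hw.2 (by rw [← mem_ball_zero_iff]; exact hw.1)
    rw [hRH w hw.2]
    change rat j (pr (WithLp.toLp 2 (f (k * Complex.log w)).rep)) j = 1
    rw [rat_pr (hne _) (hrep _ h1.le)]
    exact inv_mul_cancel₀ (hrep _ h1.le)
  have hcj : ContinuousAt (fun w => R w j) 0 := (PiLp.continuous_apply 2 _ j).continuousAt.comp hRa.continuousAt
  have hR0 : R 0 j = 1 := by
    have h4 : Tendsto (fun w => R w j) (𝓝[≠] (0 : ℂ)) (𝓝 (R 0 j)) := hcj.tendsto.mono_left nhdsWithin_le_nhds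
    exact tendsto_nhds_unique h4 (tendsto_const_nhds.congr' (hRj.mono fun w hw => hw.symm))
  refine ⟨fun w => WithLp.ofLp (R w), ?_, ?_, ?_⟩
  · exact ((PiLp.continuousLinearEquiv 2 ℂ (fun _ : Fin (N + 1) => ℂ)).toContinuousLinearMap.analyticAt _).comp hRa
  · intro h0
    have h1 : R 0 j = 0 := congrFun h0 j
    rw [hR0] at h1
    exact one_ne_zero h1
  · have h4 : ball (0 : ℂ) ρ \ {0} ∈ 𝓝[≠] (0 : ℂ) := sdiff_mem_nhdsWithin_compl (ball_mem_nhds _ hρ0) _
    filter_upwards [h4] with w hw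
    have h1 := hre w hw.2 (by rw [← mem_ball_zero_iff]; exact hw.1)
    have h2 := hrep _ h1.le
    have h3 : WithLp.ofLp (R w) = ((f (k * Complex.log w)).rep j)⁻¹ • (f (k * Complex.log w)).rep := by
      rw [hRH w hw.2]
      change WithLp.ofLp (rat j (pr (WithLp.toLp 2 (f (k * Complex.log w)).rep))) = _
      rw [rat_pr (hne _) h2]
      rfl
    have h5 : WithLp.ofLp (R w) ≠ 0 := by
      rw [h3]
      exact smul_ne_zero (inv_ne_zero h2) (f _).rep_nonzero
    refine ⟨h5, ?_⟩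
    conv_lhs => rw [← (f (k * Complex.log w)).mk_rep]
    rw [Projectivization.mk_eq_mk_iff']
    refine ⟨(f (k * Complex.log w)).rep j, ?_⟩
    rw [h3, smul_smul, mul_inv_cancel₀ h2, one_smul]

/-- **Periodic holomorphic maps with short circles.** -/
theorem exists_rational (hf : HolomorphicInto f Set.univ) (hk : 0 < k) (hper : ∀ z, f (z + (per k : ℂ) * Complex.I) = f z)
    (hs : ∀ ε > 0, ∃ X : ℝ, ∀ z z' : ℂ, X ≤ |z.re| → z'.re = z.re → |z'.im - z.im| ≤ per k → dist (prP (f z)) (prP (f z')) ≤ ε) :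
    ∃ q : Fin (N + 1) → Polynomial ℂ, ∀ z, ∃ h : (fun i => (q i).eval (Complex.exp (z / k))) ≠ 0, f z = Projectivization.mk ℂ _ h := by
  have hkc : (k : ℂ) ≠ 0 := by exact_mod_cast hk.ne'
  have hP : Function.Periodic f ((per k : ℂ) * Complex.I) := hper
  -- the left end
  obtain ⟨S, hS, hS0, hSf⟩ := exists_end hf hk hper (by
    intro ε hε
    obtain ⟨X, hX⟩ := hs ε hε
    refine ⟨X, fun z z' h1 h2 h3 => hX z z' ?_ h2 h3⟩
    have := neg_le_abs z.re
    linarith)
  -- the right end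
  obtain ⟨S', hS', hS'0, hS'f⟩ := exists_end (f := fun z => f (-z)) (k := k) (by
    intro z _
    obtain ⟨φ, hφ, he⟩ := hf (-z) (Set.mem_univ _)
    refine ⟨fun w => φ (-w), ?_, ?_⟩
    · exact AnalyticAt.comp_of_eq hφ analyticAt_id.neg rfl
    · exact (continuous_neg.tendsto z).eventually he) hk (by
    intro z
    have h1 := hP.sub_eq (-z)
    rw [← h1]
    congr 1
    ring) (by
    intro ε hε
    obtain ⟨X, hX⟩ := hs ε hε
    refine ⟨X, fun z z' h1 h2 h3 => hX (-z) (-z') ?_ (by rw [Complex.neg_re, Complex.neg_re, h2]) ?_⟩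
    · rw [Complex.neg_re, abs_neg]
      have := neg_le_abs z.re
      linarith
    · rw [Complex.neg_im, Complex.neg_im]
      have h4 : -z'.im - -z.im = -(z'.im - z.im) := by ring
      rw [h4, abs_neg]
      exact h3)
  -- the map of the punctured plane
  set G : ℂ → PN N := fun w => if w = 0 then Projectivization.mk ℂ (S 0) hS0 else f (k * Complex.log w) with hG
  have hGf : ∀ w, w ≠ 0 → G w = f (k * Complex.log w) := fun w hw => if_neg hw
  have hGh : HolomorphicInto G Set.univ := by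
    intro w₀ _
    by_cases h0 : w₀ = 0
    · subst h0
      refine ⟨S, hS, ?_⟩
      filter_upwards [eventually_nhdsWithin_iff.1 hSf, hS.continuousAt.eventually_ne hS0] with w h1 h2
      refine ⟨h2, ?_⟩
      by_cases hw : w = 0
      · subst hw
        exact if_pos rfl
      · obtain ⟨h3, h4⟩ := h1 hw
        rw [hGf w hw, h4]
    · obtain ⟨φ, hφ, he⟩ := hf (k * Complex.log w₀) (Set.mem_univ _)
      rw [← branch_self h0] at hφ he
      have h1 := analyticAt_branch (k := k) h0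
      refine ⟨fun w => φ (k * (Complex.log (w / w₀) + Complex.log w₀)), AnalyticAt.comp hφ h1, ?_⟩
      filter_upwards [h1.continuousAt.eventually he, isOpen_ne.mem_nhds h0] with w h2 h3
      obtain ⟨h4, h5⟩ := h2
      exact ⟨h4, by rw [hGf w h3, f_log hper h3 h0, h5]⟩
  obtain ⟨q, hq⟩ := exists_poly hGh hS' hS'0 (by
    have h3 : ∀ᶠ w in 𝓝[≠] (0 : ℂ), w ≠ 0 := self_mem_nhdsWithin
    filter_upwards [hS'f, h3] with w h1 h2
    obtain ⟨h4, h5⟩ := h1
    refine ⟨h4, ?_⟩
    have h6 : f (-(k * Complex.log w)) = Projectivization.mk ℂ (S' w) h4 := h5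
    rw [hGf _ (inv_ne_zero h2), ← h6, ← mul_neg]
    refine f_branch hper ?_
    rw [Complex.exp_log (inv_ne_zero h2), Complex.exp_neg, Complex.exp_log h2])
  refine ⟨q, fun z => ?_⟩
  obtain ⟨h1, h2⟩ := hq (Complex.exp (z / k))
  refine ⟨h1, ?_⟩
  rw [← h2, hGf _ (Complex.exp_ne_zero _)]
  have h3 : f z = f (k * (z / k)) := by rw [mul_div_cancel₀ _ hkc]
  rw [h3]
  exact f_branch hper (Complex.exp_log (Complex.exp_ne_zero _)).symm

end

/-- The same for a map with a global lift, in terms of the matrices `pr`. -/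
theorem exists_rational_lift {F : ℂ → EN N} (hF : Differentiable ℂ F) (hF0 : ∀ z, F z ≠ 0) {k : ℕ} (hk : 0 < k)
    (hper : ∀ z, pr (F (z + 2 * Real.pi * Complex.I * k)) = pr (F z))
    (hs : ∀ ε > 0, ∃ X : ℝ, ∀ z z' : ℂ, X ≤ |z.re| → z'.re = z.re → |z'.im - z.im| ≤ 2 * Real.pi * k → dist (pr (F z)) (pr (F z')) ≤ ε) :
    ∃ q : Fin (N + 1) → Polynomial ℂ, ∀ z, ∃ c : ℂ, c ≠ 0 ∧ ∀ i, F z i = c * (q i).eval (Complex.exp (z / k)) := by
  have hne : ∀ z, WithLp.ofLp (F z) ≠ 0 := by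
    intro z h
    apply hF0 z
    ext i
    exact congrFun h i
  set f : ℂ → PN N := fun z => Projectivization.mk ℂ (WithLp.ofLp (F z)) (hne z) with hf
  have hpr : ∀ z, prP (f z) = pr (F z) := fun z => prP_mk rfl
  have hfh : HolomorphicInto f Set.univ := by
    intro z _
    refine ⟨fun z => WithLp.ofLp (F z), ?_, Eventually.of_forall fun w => ⟨hne w, rfl⟩⟩
    exact ((PiLp.continuousLinearEquiv 2 ℂ (fun _ : Fin (N + 1) => ℂ)).toContinuousLinearMap.analyticAt _).comp
      (hF.differentiableOn.analyticAt univ_mem)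
  obtain ⟨q, hq⟩ := exists_rational hfh hk (by
    intro z
    have h1 := hper z
    have h2 : (z + 2 * Real.pi * Complex.I * k : ℂ) = z + (per k : ℂ) * Complex.I := by
      unfold per
      push_cast
      ring
    rw [h2] at h1
    obtain ⟨c, hc, h3⟩ := (Pool.Agent.H62.EF.pr_eq_iff (hF0 _) (hF0 _)).1 h1
    rw [Projectivization.mk_eq_mk_iff']
    refine ⟨c, ?_⟩
    funext i
    exact (congrArg (fun x : EN N => x i) h3).symm) (by
    intro ε hε
    obtain ⟨X, hX⟩ := hs ε hε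
    refine ⟨X, fun z z' h1 h2 h3 => ?_⟩
    rw [hpr, hpr]
    exact hX z z' h1 h2 h3)
  refine ⟨q, fun z => ?_⟩
  obtain ⟨h1, h2⟩ := hq z
  rw [Projectivization.mk_eq_mk_iff'] at h2
  obtain ⟨c, hc⟩ := h2
  refine ⟨c, ?_, fun i => (congrFun hc i).symm⟩
  rintro rfl
  rw [zero_smul] at hc
  exact hne z hc.symm

end Pool.Agent.H7.Per
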