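import Pool.Agent.H7.Per.Rat
import Pool.Agent.H62.EF.PrA

/-!
# Per End: a periodic holomorphic map with short circles extends over the end

Let `f : ℂ → ℙ^N` be holomorphic with period `2 π i k`, and let the images of the segments of length `2 π k` in `Re z = s` be small for `s → -∞`.  Then `f (k log w)` extends
holomorphically over `w = 0`.  Proof: choose `s₀` and a coordinate `j` with `|x_j|² ≥ |x|² / (N + 1)` at `f s₀`.  The mean of the ratios `x_i / x_j` over the segment `Re z = s` does not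
depend on `s` as long as `x_j ≠ 0`; so the ratios are almost constant for `s ≤ s₀`, `x_j` is never small, and the ratios are bounded functions of `w`.
-/

set_option autoImplicit false

open Topology Filter Metric

noncomputable section

namespace Pool.Agent.H7.Per

open Pool.Agent.H17 (PN VanishesAt HolomorphicInto vanishesAt_mk_iff)
open Pool.Agent.H36.BP (EN)
open Pool.Agent.H62.EF (MN pr)

variable {N : ℕ}

/-- The matrix of a point of projective space. -/
def prP (x : PN N) : MN N := pr (WithLp.toLp 2 x.rep)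

theorem toLp_ne {v : Fin (N + 1) → ℂ} (h : v ≠ 0) : (WithLp.toLp 2 v : EN N) ≠ 0 := by
  intro h1
  apply h
  funext i
  have h2 := congrArg (fun x : EN N => x i) h1
  exact h2

theorem prP_mk {x : PN N} {v : Fin (N + 1) → ℂ} {h : v ≠ 0} (hx : x = Projectivization.mk ℂ v h) : prP x = pr (WithLp.toLp 2 v) := by
  obtain ⟨c, hc, h1⟩ := rep_mk hx
  unfold prP
  rw [h1, WithLp.toLp_smul, Pool.Agent.H62.EF.pr_smul _ hc]

theorem continuousAt_prP {f : ℂ → PN N} {U : Set ℂ} (hf : HolomorphicInto f U) {z : ℂ} (hz : z ∈ U) : ContinuousAt (fun z => prP (f z)) z := by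
  obtain ⟨φ, hφ, he⟩ := hf z hz
  obtain ⟨h1, -⟩ := he.self_of_nhds
  have h2 : ContinuousAt (fun z => (WithLp.toLp 2 (φ z) : EN N)) z :=
    (PiLp.continuous_toLp 2 _).continuousAt.comp hφ.continuousAt
  have h3 : ContinuousAt (fun z => pr (WithLp.toLp 2 (φ z) : EN N)) z :=
    ContinuousAt.comp (g := pr) (f := fun z => (WithLp.toLp 2 (φ z) : EN N)) (Pool.Agent.H62.EF.continuousAt_pr (toLp_ne h1)) h2
  refine h3.congr ?_
  filter_upwards [he] with w h4
  obtain ⟨h5, h6⟩ := h4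
  exact (prP_mk h6).symm

/-- The ratios of the coordinates, as functions of the matrix. -/
def rat (j : Fin (N + 1)) (m : MN N) : EN N := WithLp.toLp 2 fun i => m (i, j) / m (j, j)

theorem rat_pr {x : EN N} {j : Fin (N + 1)} (hx : x ≠ 0) (hj : x j ≠ 0) : rat j (pr x) = (x j)⁻¹ • x := by
  have h1 : ((‖x‖ ^ 2 : ℝ) : ℂ) ≠ 0 := by
    have : ‖x‖ ≠ 0 := norm_ne_zero_iff.mpr hx
    exact_mod_cast pow_ne_zero 2 this
  have h2 : (starRingEnd ℂ) (x j) ≠ 0 := fun h => hj ((map_eq_zero _).1 h)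
  unfold rat pr
  ext i
  change (x i * (starRingEnd ℂ) (x j) / ((‖x‖ ^ 2 : ℝ) : ℂ)) / (x j * (starRingEnd ℂ) (x j) / ((‖x‖ ^ 2 : ℝ) : ℂ)) = (x j)⁻¹ * x i
  rw [div_div_div_cancel_right₀ h1, mul_div_mul_right _ _ h2, div_eq_inv_mul]

theorem norm_diag (x : EN N) (j : Fin (N + 1)) : ‖pr x (j, j)‖ = ‖x j‖ ^ 2 / ‖x‖ ^ 2 := by
  unfold pr
  change ‖x j * (starRingEnd ℂ) (x j) / ((‖x‖ ^ 2 : ℝ) : ℂ)‖ = _
  rw [norm_div, norm_mul, RCLike.norm_conj, Complex.norm_real, Real.norm_of_nonneg (by positivity)]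
  ring

theorem norm_rat {x : EN N} {j : Fin (N + 1)} (hx : x ≠ 0) (hj : x j ≠ 0) : ‖rat j (pr x)‖ ^ 2 = ‖pr x (j, j)‖⁻¹ := by
  rw [rat_pr hx hj, norm_diag, norm_smul, norm_inv, inv_div, mul_pow, inv_pow, div_eq_inv_mul]

theorem exists_big {x : EN N} (hx : x ≠ 0) : ∃ j, ((N : ℝ) + 1)⁻¹ ≤ ‖pr x (j, j)‖ := by
  by_contra hcon
  push Not at hcon
  have h1 : ∑ j, ‖pr x (j, j)‖ = 1 := by
    have h2 : ∀ j, ‖pr x (j, j)‖ = ‖x j‖ ^ 2 / ‖x‖ ^ 2 := fun j => norm_diag x j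
    rw [Finset.sum_congr rfl fun j _ => h2 j, ← Finset.sum_div, ← EuclideanSpace.norm_sq_eq]
    exact div_self (pow_ne_zero 2 (norm_ne_zero_iff.2 hx))
  have h2 : ∑ j : Fin (N + 1), ‖pr x (j, j)‖ < ∑ _j : Fin (N + 1), ((N : ℝ) + 1)⁻¹ :=
    Finset.sum_lt_sum_of_nonempty Finset.univ_nonempty fun j _ => hcon j
  rw [h1, Finset.sum_const, Finset.card_univ, Fintype.card_fin, nsmul_eq_mul, Nat.cast_add, Nat.cast_one,
    mul_inv_cancel₀ (by positivity)] at h2
  exact lt_irrefl _ h2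

theorem uniform_rat {c : ℝ} (hc : 0 < c) {η : ℝ} (hη : 0 < η) : ∃ ε : ℝ, 0 < ε ∧ ∀ (j : Fin (N + 1)) (m m' : MN N), ‖m‖ ≤ 1 → ‖m'‖ ≤ 1 →
    c ≤ ‖m (j, j)‖ → c ≤ ‖m' (j, j)‖ → dist m m' ≤ ε → dist (rat j m) (rat j m') ≤ η := by
  have h1 : ∀ j : Fin (N + 1), ∃ ε : ℝ, 0 < ε ∧ ∀ (m m' : MN N), ‖m‖ ≤ 1 → ‖m'‖ ≤ 1 →
      c ≤ ‖m (j, j)‖ → c ≤ ‖m' (j, j)‖ → dist m m' ≤ ε → dist (rat j m) (rat j m') ≤ η := by
    intro j
    set K : Set (MN N) := closedBall 0 1 ∩ {m | c ≤ ‖m (j, j)‖} with hK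
    have hcont : Continuous fun m : MN N => m (j, j) := PiLp.continuous_apply 2 _ (j, j)
    have hKc : IsCompact K := (isCompact_closedBall _ _).inter_right (isClosed_le continuous_const hcont.norm)
    have hrc : ContinuousOn (rat j) K := by
      intro m hm
      have h2 : m (j, j) ≠ 0 := by
        intro h3
        have h4 : c ≤ ‖m (j, j)‖ := hm.2
        rw [h3, norm_zero] at h4
        linarith
      have h3 : ContinuousAt (fun m : MN N => fun i : Fin (N + 1) => m (i, j) / m (j, j)) m := by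
        refine continuousAt_pi.2 fun i => ?_
        exact ((PiLp.continuous_apply 2 _ (i, j)).continuousAt).div hcont.continuousAt h2
      exact ((PiLp.continuous_toLp 2 _).continuousAt.comp h3).continuousWithinAt
    obtain ⟨ε, hε, h2⟩ := Metric.uniformContinuousOn_iff.1 (hKc.uniformContinuousOn_of_continuous hrc) η hη
    refine ⟨ε / 2, half_pos hε, fun m m' hm hm' hc1 hc2 hd => (h2 m ⟨?_, hc1⟩ m' ⟨?_, hc2⟩ (hd.trans_lt (half_lt_self hε))).le⟩
    · rwa [mem_closedBall_zero_iff]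
    · rwa [mem_closedBall_zero_iff]
  choose ε hε h2 using h1
  refine ⟨Finset.univ.inf' Finset.univ_nonempty ε, ?_, fun j m m' hm hm' hc1 hc2 hd => h2 j m m' hm hm' hc1 hc2 (hd.trans ?_)⟩
  · rw [Finset.lt_inf'_iff]
    exact fun j _ => hε j
  · exact Finset.inf'_le _ (Finset.mem_univ j)

/-- the ratios along a holomorphic map -/
theorem differentiableAt_rat {f : ℂ → PN N} {U : Set ℂ} (hf : HolomorphicInto f U) {z : ℂ} (hz : z ∈ U) {j : Fin (N + 1)}
    (hj : (f z).rep j ≠ 0) : DifferentiableAt ℂ (fun z => rat j (prP (f z))) z := by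
  obtain ⟨φ, hφ, he⟩ := hf z hz
  have h0 : φ z j ≠ 0 := by
    obtain ⟨h1, h2⟩ := he.self_of_nhds
    obtain ⟨c, hc, h3⟩ := rep_mk h2
    rw [h3] at hj
    exact right_ne_zero_of_mul hj
  have hφj : DifferentiableAt ℂ (fun z => φ z j) z := (analyticAt_pi_iff.1 hφ j).differentiableAt
  have h1 : DifferentiableAt ℂ (fun z => (WithLp.toLp 2 ((φ z j)⁻¹ • φ z) : EN N)) z := by
    have h2 : DifferentiableAt ℂ (fun z => (φ z j)⁻¹ • φ z) z := (hφj.inv h0).smul hφ.differentiableAt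
    exact (PiLp.continuousLinearEquiv 2 ℂ (fun _ : Fin (N + 1) => ℂ)).symm.toContinuousLinearMap.differentiableAt.comp z h2
  refine h1.congr_of_eventuallyEq ?_
  filter_upwards [he, hφj.continuousAt.eventually_ne h0] with w h3 h4
  obtain ⟨h5, h6⟩ := h3
  rw [prP_mk h6, rat_pr (toLp_ne h5) h4, WithLp.toLp_smul]

/-- **The ratios are bounded near the end.** -/
theorem exists_coord_end {f : ℂ → PN N} (hf : HolomorphicInto f Set.univ) {L : ℝ} (hL : 0 < L) (hper : ∀ z, f (z + L * Complex.I) = f z)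
    (hs : ∀ ε > 0, ∃ X : ℝ, ∀ z z' : ℂ, z.re ≤ -X → z'.re = z.re → |z'.im - z.im| ≤ L → dist (prP (f z)) (prP (f z')) ≤ ε) :
    ∃ (j : Fin (N + 1)) (s₀ c : ℝ), 0 < c ∧ ∀ z : ℂ, z.re ≤ s₀ → c ≤ ‖prP (f z) (j, j)‖ := by
  set c : ℝ := ((N : ℝ) + 1)⁻¹ / 2 with hc
  have hcpos : 0 < c := by positivity
  obtain ⟨ε₁, hε₁, hu⟩ := uniform_rat (N := N) hcpos (η := 1 / 20) (by norm_num)
  obtain ⟨X, hX⟩ := hs (min ε₁ (c / 2)) (lt_min hε₁ (by positivity))
  set s₀ : ℝ := -X with hs₀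
  have hne : ∀ z, (WithLp.toLp 2 (f z).rep : EN N) ≠ 0 := fun z => toLp_ne (f z).rep_nonzero
  obtain ⟨j, hj⟩ : ∃ j, 2 * c ≤ ‖prP (f (s₀ : ℂ)) (j, j)‖ := by
    obtain ⟨j, hj⟩ := exists_big (hne (s₀ : ℂ))
    refine ⟨j, ?_⟩
    rw [hc]
    have h1 : 2 * (((N : ℝ) + 1)⁻¹ / 2) = ((N : ℝ) + 1)⁻¹ := by ring
    rw [h1]
    exact hj
  set a : ℂ → ℝ := fun z => ‖prP (f z) (j, j)‖ with ha
  have hcont : Continuous fun z => prP (f z) := continuous_iff_continuousAt.2 fun z => continuousAt_prP hf (Set.mem_univ z)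
  have hac : Continuous a := ((PiLp.continuous_apply 2 _ (j, j)).comp hcont).norm
  have hdist : ∀ z z', |a z - a z'| ≤ dist (prP (f z)) (prP (f z')) := by
    intro z z'
    refine (abs_norm_sub_norm_le _ _).trans ?_
    rw [dist_eq_norm]
    exact PiLp.norm_apply_le (prP (f z) - prP (f z')) (j, j)
  have hm1 : ∀ z, ‖prP (f z)‖ ≤ 1 := fun z => (Pool.Agent.H62.EF.norm_pr (hne z)).le
  -- the claim on the real axis
  have claim : ∀ s : ℝ, s ≤ s₀ → 3 / 2 * c < a s := by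
    intro s₁ hs₁
    by_contra hcon
    push Not at hcon
    have hreal : Continuous fun s : ℝ => a (s : ℂ) := hac.comp Complex.continuous_ofReal
    have hj' : 2 * c ≤ a (s₀ : ℂ) := hj
    set C : Set ℝ := Set.Icc s₁ s₀ ∩ (fun s : ℝ => a (s : ℂ)) ⁻¹' {3 / 2 * c} with hC
    have hCc : IsCompact C := isCompact_Icc.inter_right (isClosed_singleton.preimage hreal)
    have hIVT : ∀ s : ℝ, s ≤ s₀ → a (s : ℂ) ≤ 3 / 2 * c → ∃ t ∈ Set.Icc s s₀, a (t : ℂ) = 3 / 2 * c := by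
      intro s hs h1
      obtain ⟨t, ht, h2⟩ := intermediate_value_Icc hs hreal.continuousOn (show 3 / 2 * c ∈ Set.Icc (a (s : ℂ)) (a (s₀ : ℂ)) from
        ⟨h1, by linarith⟩)
      exact ⟨t, ht, h2⟩
    obtain ⟨t₀, ht₀, ht₀'⟩ := hIVT s₁ hs₁ hcon
    obtain ⟨s₂, ⟨hs₂, hs₂a⟩, hs₂m⟩ := hCc.exists_isGreatest ⟨t₀, ht₀, ht₀'⟩
    have hs₂a' : a (s₂ : ℂ) = 3 / 2 * c := hs₂a
    have hlt : s₂ < s₀ := by
      refine lt_of_le_of_ne hs₂.2 ?_
      rintro rfl
      linarith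
    have hint : ∀ s ∈ Set.Icc s₂ s₀, 3 / 2 * c ≤ a (s : ℂ) := by
      intro s hs
      by_contra h1
      push Not at h1
      obtain ⟨t, ht, h2⟩ := hIVT s hs.2 h1.le
      have h3 : t ∈ C := ⟨⟨hs₂.1.trans (hs.1.trans ht.1), ht.2⟩, h2⟩
      have h4 : t ≤ s₂ := hs₂m h3
      have h5 : t = s := le_antisymm (h4.trans hs.1) ht.1
      rw [h5] at h2
      linarith
    -- the rectangle
    have hrect : ∀ z : ℂ, z.re ∈ Set.Icc s₂ s₀ → z.im ∈ Set.Icc 0 L → c ≤ a z := by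
      intro z hz1 hz2
      have h1 := hX (z.re : ℂ) z (by rw [Complex.ofReal_re]; exact hz1.2) (by rw [Complex.ofReal_re]) (by
        rw [Complex.ofReal_im, sub_zero, abs_of_nonneg hz2.1]
        exact hz2.2)
      have h2 := hint z.re hz1
      have h3 := (hdist (z.re : ℂ) z).trans (h1.trans (min_le_right _ _))
      have h4 := (abs_le.1 h3).2
      linarith
    set r : ℂ → EN N := fun z => rat j (prP (f z)) with hr
    have hrep : ∀ z, c ≤ a z → (f z).rep j ≠ 0 := by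
      intro z hz h0
      have h1 : a z = 0 := by
        change ‖pr (WithLp.toLp 2 (f z).rep) (j, j)‖ = 0
        rw [norm_diag]
        change ‖(f z).rep j‖ ^ 2 / _ = 0
        rw [h0, norm_zero]
        ring
      rw [h1] at hz
      linarith
    have hrn : ∀ z, c ≤ a z → ‖r z‖ ^ 2 = (a z)⁻¹ := fun z hz => norm_rat (hne z) (hrep z hz)
    have hrd : ∀ z, c ≤ a z → DifferentiableAt ℂ r z := fun z hz => differentiableAt_rat hf (Set.mem_univ z) (hrep z hz)
    have hrper : ∀ z, r (z + L * Complex.I) = r z := fun z => by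
      change rat j (prP (f (z + L * Complex.I))) = _
      rw [hper]
    have hcauchy := Complex.integral_boundary_rect_eq_zero_of_differentiableOn r (s₂ : ℂ) (s₀ + L * Complex.I) (by
      intro z hz
      rw [Complex.mem_reProdIm] at hz
      have h1 : (s₀ + L * Complex.I : ℂ).re = s₀ := by simp
      have h2 : (s₀ + L * Complex.I : ℂ).im = L := by simp
      rw [h1, h2, Complex.ofReal_re, Complex.ofReal_im, Set.uIcc_of_le hlt.le, Set.uIcc_of_le hL.le] at hz
      exact (hrd z (hrect z hz.1 hz.2)).differentiableWithinAt)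
    have h1 : (s₀ + L * Complex.I : ℂ).re = s₀ := by simp
    have h2 : (s₀ + L * Complex.I : ℂ).im = L := by simp
    rw [h1, h2, Complex.ofReal_re, Complex.ofReal_im] at hcauchy
    have h3 : ∀ x : ℝ, r (x + (L : ℂ) * Complex.I) = r (x + ((0 : ℝ) : ℂ) * Complex.I) := by
      intro x
      rw [hrper, Complex.ofReal_zero, zero_mul, add_zero]
    simp only [h3] at hcauchy
    rw [sub_self, zero_add, ← smul_sub, smul_eq_zero] at hcauchy
    have hmean := sub_eq_zero.1 (hcauchy.resolve_left Complex.I_ne_zero)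
    -- the means
    have hclose : ∀ s ∈ Set.Icc s₂ s₀, ‖(∫ y in (0 : ℝ)..L, r (s + y * Complex.I)) - (L : ℂ) • r (s : ℂ)‖ ≤ 1 / 20 * L := by
      intro s hs
      have hz : ∀ y ∈ Set.Icc (0 : ℝ) L, c ≤ a (s + y * Complex.I) := by
        intro y hy
        exact hrect _ (by simpa using hs) (by simpa using hy)
      have hci : ContinuousOn (fun y : ℝ => r (s + y * Complex.I)) (Set.uIcc 0 L) := by
        rw [Set.uIcc_of_le hL.le]
        intro y hy
        have h4 : Continuous fun y : ℝ => (s + y * Complex.I : ℂ) := by fun_prop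
        exact (ContinuousAt.comp (g := r) (f := fun y : ℝ => (s + y * Complex.I : ℂ)) (hrd _ (hz y hy)).continuousAt h4.continuousAt).continuousWithinAt
      have h4 : (L : ℂ) • r (s : ℂ) = ∫ _y in (0 : ℝ)..L, r (s : ℂ) := by
        rw [intervalIntegral.integral_const, sub_zero]
        rfl
      rw [h4, ← intervalIntegral.integral_sub hci.intervalIntegrable intervalIntegrable_const]
      have h5 := intervalIntegral.norm_integral_le_of_norm_le_const (a := 0) (b := L) (C := 1 / 20)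
        (f := fun y : ℝ => r (s + y * Complex.I) - r (s : ℂ)) (by
        intro y hy
        rw [Set.uIoc_of_le hL.le] at hy
        have hy' : y ∈ Set.Icc (0 : ℝ) L := ⟨hy.1.le, hy.2⟩
        rw [← dist_eq_norm, dist_comm]
        refine hu j _ _ (hm1 _) (hm1 _) ?_ (hz y hy') ?_
        · have := hint s hs
          change c ≤ a (s : ℂ)
          linarith
        · refine (hX (s : ℂ) _ (by rw [Complex.ofReal_re]; exact hs.2) (by simp) ?_).trans (min_le_left _ _)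
          have h6 : (s + y * Complex.I : ℂ).im - (s : ℂ).im = y := by simp
          rw [h6, abs_of_pos hy.1]
          exact hy.2)
      rwa [sub_zero, abs_of_pos hL] at h5
    have h4 := hclose s₀ ⟨hlt.le, le_rfl⟩
    have h5 := hclose s₂ ⟨le_rfl, hlt.le⟩
    rw [← hmean] at h5
    have h6 : ‖(L : ℂ) • r (s₂ : ℂ) - (L : ℂ) • r (s₀ : ℂ)‖ ≤ 1 / 10 * L := by
      have h7 : (L : ℂ) • r (s₂ : ℂ) - (L : ℂ) • r (s₀ : ℂ) = ((∫ y in (0 : ℝ)..L, r (s₀ + y * Complex.I)) - (L : ℂ) • r (s₀ : ℂ)) -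
          ((∫ y in (0 : ℝ)..L, r (s₀ + y * Complex.I)) - (L : ℂ) • r (s₂ : ℂ)) := by abel
      rw [h7]
      refine (norm_sub_le _ _).trans ?_
      linarith
    rw [← smul_sub, norm_smul, Complex.norm_real, Real.norm_of_nonneg hL.le, mul_comm] at h6
    have h7 : ‖r (s₂ : ℂ) - r (s₀ : ℂ)‖ ≤ 1 / 10 := le_of_mul_le_mul_right h6 hL
    have h8 : ‖r (s₂ : ℂ)‖ ≤ ‖r (s₀ : ℂ)‖ + 1 / 10 := by
      have h9 := norm_le_norm_add_norm_sub' (r (s₂ : ℂ)) (r (s₀ : ℂ))
      linarith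
    have h9 := hrn (s₂ : ℂ) (by rw [hs₂a']; linarith)
    have h10 := hrn (s₀ : ℂ) (by linarith)
    rw [hs₂a'] at h9
    have hN : (1 : ℝ) ≤ (N : ℝ) + 1 := by
      have : (0 : ℝ) ≤ N := Nat.cast_nonneg N
      linarith
    have h11 : ‖r (s₂ : ℂ)‖ ^ 2 = 4 / 3 * ((N : ℝ) + 1) := by
      rw [h9, hc]
      field_simp
      norm_num
    have h12 : ‖r (s₀ : ℂ)‖ ^ 2 ≤ (N : ℝ) + 1 := by
      rw [h10]
      have h13 : (2 * c)⁻¹ = (N : ℝ) + 1 := by
        rw [hc]
        field_simp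
      rw [← h13]
      exact inv_anti₀ (by positivity) hj'
    have h13 : 0 ≤ ‖r (s₀ : ℂ)‖ := norm_nonneg _
    have h14 : 0 ≤ ‖r (s₂ : ℂ)‖ := norm_nonneg _
    have h15 : ‖r (s₀ : ℂ)‖ ≤ (N : ℝ) + 1 := by nlinarith
    nlinarith
  -- all points
  refine ⟨j, s₀, c, hcpos, fun z hz => ?_⟩
  have hP : Function.Periodic f ((L : ℂ) * Complex.I) := hper
  set n : ℤ := ⌊z.im / L⌋ with hn
  have h1 : f (z - n * ((L : ℂ) * Complex.I)) = f z := hP.sub_int_mul_eq n
  set z' : ℂ := z - n * ((L : ℂ) * Complex.I) with hz'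
  have h2 : z'.re = z.re := by simp [hz']
  have h3 : z'.im = z.im - n * L := by simp [hz']
  have h4 : 0 ≤ z'.im := by
    rw [h3]
    have h5 := Int.floor_le (z.im / L)
    rw [le_div_iff₀ hL] at h5
    linarith
  have h5 : z'.im ≤ L := by
    rw [h3]
    have h6 := (Int.lt_floor_add_one (z.im / L)).le
    rw [div_le_iff₀ hL] at h6
    linarith
  have h6 := hX (z.re : ℂ) z' (by rw [Complex.ofReal_re]; exact hz) (by rw [Complex.ofReal_re]; exact h2) (by
    rw [Complex.ofReal_im, sub_zero, abs_of_nonneg h4]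
    exact h5)
  have h7 := (hdist (z.re : ℂ) z').trans (h6.trans (min_le_right _ _))
  have h8 := claim z.re hz
  have h9 := (abs_le.1 h7).2
  change c ≤ ‖prP (f z) (j, j)‖
  rw [← h1]
  change c ≤ a z'
  linarith

end Pool.Agent.H7.Per
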