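import Pool.Agent.H7.Per.Main
import Pool.Agent.H62.Et.Defs

/-!
# Per Pn: periodic holomorphic maps into projective space with short circles, in terms of `pn`
-/

set_option autoImplicit false

open Topology Filter Metric

noncomputable section

namespace Pool.Agent.H7.Per

open Pool.Agent.H17 (PN HolomorphicInto)
open Pool.Agent.H62.Et (pn)

variable {M : ℕ}

theorem prP_eq_pn (x : PN M) : prP x = pn x := rfl

/-- **Periodic holomorphic maps with short circles are rational functions of the exponential.** -/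
theorem exists_poly_pn {f : ℂ → PN M} (hf : HolomorphicInto f Set.univ) {q : ℕ} (hq : 1 ≤ q)
    (hper : ∀ z, f (z + 2 * Real.pi * Complex.I * q) = f z)
    (hs : ∀ R ε : ℝ, 0 < ε → ∃ X₀ : ℝ, ∀ z w : ℂ, X₀ < |z.re| → ‖w - z‖ ≤ R → dist (pn (f w)) (pn (f z)) < ε) :
    ∃ p : Fin (M + 1) → Polynomial ℂ, ∀ z, ∃ h : (fun a => (p a).eval (Complex.exp (z / q))) ≠ 0, f z = Projectivization.mk ℂ _ h := by
  refine exists_rational hf hq (fun z => ?_) fun ε hε => ?_
  · rw [← hper z]
    congr 1
    unfold per
    push_cast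
    ring
  · obtain ⟨X, hX⟩ := hs (per q) ε hε
    refine ⟨X + 1, fun z z' h1 h2 h3 => ?_⟩
    rw [dist_comm, prP_eq_pn, prP_eq_pn]
    refine (hX z z' (by linarith) ?_).le
    have h4 : z' - z = ((z'.im - z.im : ℝ) : ℂ) * Complex.I := by
      apply Complex.ext
      · simp [h2]
      · simp
    rw [h4, norm_mul, Complex.norm_I, mul_one, Complex.norm_real]
    exact h3

end Pool.Agent.H7.Per
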