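import Pool.Agent.H7.Bir.Map

/-!
# Per Rat: holomorphic maps of the projective line into projective space are given by polynomials

`exists_poly`: let `G : ℂ → ℙ^N` be holomorphic, and let `w ↦ G (w⁻¹)` extend holomorphically over `0`.  Then `G w = [q_0 (w) : ... : q_N (w)]` for
polynomials `q_i` without common zeros.
-/

set_option autoImplicit false

open Topology Filter Metric

noncomputable section

namespace Pool.Agent.H7.Per

open Pool.Agent.H17 (PN VanishesAt HolomorphicInto vanishesAt_mk_iff)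

variable {N : ℕ}

/-- An entire function with polynomial growth is a polynomial. -/
theorem poly_of_growth {k : ℂ → ℂ} (hk : Differentiable ℂ k) {C : ℝ} {N : ℕ}
    (hb : ∀ w, 1 ≤ ‖w‖ → ‖k w‖ ≤ C * ‖w‖ ^ N) :
    ∃ p : Polynomial ℂ, ∀ w, k w = p.eval w := by
  have hC : 0 ≤ C := by
    have h1 := hb 1 (by simp)
    rw [norm_one, one_pow, mul_one] at h1
    exact (norm_nonneg _).trans h1
  have hder : ∀ n, N < n → iteratedDeriv n k 0 = 0 := by
    intro n hn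
    have h1 : ∀ R : ℝ, 1 ≤ R → ‖iteratedDeriv n k 0‖ ≤ n.factorial * C * R⁻¹ := by
      intro R hR
      have hR0 : 0 < R := by linarith
      have h2 := Complex.norm_iteratedDeriv_le_of_forall_mem_sphere_norm_le (f := k) (c := 0)
        (C := C * R ^ N) n hR0 hk.diffContOnCl (fun z hz => by
          have hz' : ‖z‖ = R := by simpa using hz
          have h3 := hb z (by rw [hz']; exact hR)
          rwa [hz'] at h3)
      refine h2.trans ?_
      obtain ⟨d, rfl⟩ : ∃ d, n = N + 1 + d := ⟨n - (N + 1), by omega⟩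
      have h4 : (1 : ℝ) ≤ R ^ d := one_le_pow₀ hR
      rw [div_le_iff₀ (by positivity)]
      have h5 : R⁻¹ * R ^ (N + 1 + d) = R ^ N * R ^ d := by
        rw [pow_add, pow_succ]
        field_simp
      calc ((N + 1 + d).factorial : ℝ) * (C * R ^ N)
          = ((N + 1 + d).factorial : ℝ) * C * (R ^ N * 1) := by ring
        _ ≤ ((N + 1 + d).factorial : ℝ) * C * (R ^ N * R ^ d) := by gcongr
        _ = ((N + 1 + d).factorial : ℝ) * C * R⁻¹ * R ^ (N + 1 + d) := by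
            rw [← h5]
            ring
    have h2 : Tendsto (fun R : ℝ => (n.factorial : ℝ) * C * R⁻¹) atTop (𝓝 0) := by
      have h3 := (tendsto_inv_atTop_zero (𝕜 := ℝ)).const_mul ((n.factorial : ℝ) * C)
      rwa [mul_zero] at h3
    have h3 : ‖iteratedDeriv n k 0‖ ≤ 0 :=
      ge_of_tendsto h2 ((eventually_ge_atTop 1).mono h1)
    exact norm_le_zero_iff.1 h3
  refine ⟨∑ n ∈ Finset.range (N + 1),
    Polynomial.C ((n.factorial : ℂ)⁻¹ * iteratedDeriv n k 0) * Polynomial.X ^ n, fun w => ?_⟩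
  have h1 := Complex.hasSum_taylorSeries_of_entire hk 0 w
  have h2 : HasSum (fun n : ℕ => (n.factorial : ℂ)⁻¹ • (w - 0) ^ n • iteratedDeriv n k 0)
      (∑ n ∈ Finset.range (N + 1), (n.factorial : ℂ)⁻¹ • (w - 0) ^ n • iteratedDeriv n k 0) := by
    refine hasSum_sum_of_ne_finset_zero fun n hn => ?_
    have h3 : N < n := by
      by_contra h4
      exact hn (Finset.mem_range.2 (by omega))
    rw [hder n h3, smul_zero, smul_zero]
  rw [h1.unique h2, Polynomial.eval_finsetSum]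
  refine Finset.sum_congr rfl fun n _ => ?_
  rw [Polynomial.eval_mul, Polynomial.eval_C, Polynomial.eval_pow, Polynomial.eval_X,
    smul_eq_mul, smul_eq_mul, sub_zero]
  ring

theorem vanishes_X {i : Fin (N + 1)} {x : PN N} : VanishesAt (MvPolynomial.X i) x ↔ x.rep i = 0 := by
  unfold VanishesAt
  rw [MvPolynomial.eval_X]

theorem rep_mk {x : PN N} {v : Fin (N + 1) → ℂ} {h : v ≠ 0} (hx : x = Projectivization.mk ℂ v h) : ∃ c : ℂ, c ≠ 0 ∧ x.rep = c • v := by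
  obtain ⟨a, ha⟩ := Projectivization.exists_smul_eq_mk_rep ℂ v h
  exact ⟨a, a.ne_zero, by rw [hx]; exact ha.symm⟩

/-- A coordinate which is not zero at one point is not identically zero near any point. -/
theorem coord_ne {G : ℂ → PN N} (hG : HolomorphicInto G Set.univ) {j : Fin (N + 1)} {w₀ : ℂ} (h0 : (G w₀).rep j ≠ 0) (a : ℂ)
    {φ : ℂ → Fin (N + 1) → ℂ} (he : ∀ᶠ w in 𝓝 a, ∃ h : φ w ≠ 0, G w = Projectivization.mk ℂ (φ w) h) :
    ¬ ∀ᶠ w in 𝓝 a, φ w j = 0 := by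
  intro h1
  have h2 := Pool.Agent.H36.BP.vanish_identity isPreconnected_univ hG (S := {MvPolynomial.X j}) (by
    rintro P hP
    rw [Set.mem_singleton_iff] at hP
    subst hP
    exact ⟨1, MvPolynomial.isHomogeneous_X ℂ j⟩) (Set.mem_univ a) (by
    filter_upwards [he, h1] with w h3 h4 P hP
    rw [Set.mem_singleton_iff] at hP
    subst hP
    obtain ⟨h5, h6⟩ := h3
    rw [h6, vanishesAt_mk_iff (MvPolynomial.isHomogeneous_X ℂ j), MvPolynomial.eval_X]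
    exact h4) w₀ (Set.mem_univ _) _ rfl
  exact h0 (vanishes_X.1 h2)

/-- **Holomorphic maps of the projective line into projective space are given by polynomials.** -/
theorem exists_poly {G : ℂ → PN N} (hG : HolomorphicInto G Set.univ) {S : ℂ → Fin (N + 1) → ℂ} (hS : AnalyticAt ℂ S 0) (hS0 : S 0 ≠ 0)
    (hSG : ∀ᶠ w in 𝓝[≠] (0 : ℂ), ∃ h : S w ≠ 0, G w⁻¹ = Projectivization.mk ℂ (S w) h) :
    ∃ q : Fin (N + 1) → Polynomial ℂ, ∀ w, ∃ h : (fun i => (q i).eval w) ≠ 0, G w = Projectivization.mk ℂ _ h := by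
  classical
  obtain ⟨j, hj⟩ : ∃ j, (G 0).rep j ≠ 0 := by
    by_contra hcon
    push Not at hcon
    exact (G 0).rep_nonzero (funext hcon)
  choose φ hφ he using fun a => hG a (Set.mem_univ a)
  -- the orders of the zeros
  have hord : ∀ a, ∃ (n : ℕ) (ψ : ℂ → ℂ), AnalyticAt ℂ ψ a ∧ ψ a ≠ 0 ∧ ∀ᶠ w in 𝓝 a, φ a w j = (w - a) ^ n * ψ w := by
    intro a
    have h1 : AnalyticAt ℂ (fun w => φ a w j) a := analyticAt_pi_iff.1 (hφ a) j
    obtain ⟨n, ψ, h2, h3, h4⟩ := h1.exists_eventuallyEq_pow_smul_nonzero_iff.2 (coord_ne hG hj a (he a))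
    exact ⟨n, ψ, h2, h3, h4⟩
  choose n ψ hψ hψ0 hψe using hord
  -- near infinity
  have hSj : ¬ ∀ᶠ w in 𝓝 (0 : ℂ), S w j = 0 := by
    intro h1
    have h2 : ∀ᶠ w in 𝓝[≠] (0 : ℂ), w ≠ 0 ∧ (∃ h : S w ≠ 0, G w⁻¹ = Projectivization.mk ℂ (S w) h) ∧ ∀ᶠ w' in 𝓝 w, w' ≠ 0 ∧
        (∃ h : S w' ≠ 0, G w'⁻¹ = Projectivization.mk ℂ (S w') h) ∧ S w' j = 0 := by
      have h3 : ∀ᶠ w in 𝓝[≠] (0 : ℂ), w ≠ 0 := self_mem_nhdsWithin
      have h4 : ∀ᶠ w in 𝓝[≠] (0 : ℂ), ∀ᶠ w' in 𝓝[≠] w, (∃ h : S w' ≠ 0, G w'⁻¹ = Projectivization.mk ℂ (S w') h) ∧ S w' j = 0 := by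
        have h5 : ∀ᶠ w in 𝓝[≠] (0 : ℂ), (∃ h : S w ≠ 0, G w⁻¹ = Projectivization.mk ℂ (S w) h) ∧ S w j = 0 :=
          hSG.and (h1.filter_mono nhdsWithin_le_nhds)
        have h7 : ∀ᶠ w in 𝓝 (0 : ℂ), ∀ᶠ w' in 𝓝 w, w' ∈ ({0}ᶜ : Set ℂ) → ((∃ h : S w' ≠ 0, G w'⁻¹ = Projectivization.mk ℂ (S w') h) ∧ S w' j = 0) :=
          (eventually_nhdsWithin_iff.1 h5).eventually_nhds
        filter_upwards [h7.filter_mono nhdsWithin_le_nhds, h3] with w h8 h9
        refine eventually_nhdsWithin_iff.2 ?_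
        filter_upwards [h8, isOpen_compl_singleton.mem_nhds h9] with w' h10 h11 _
        exact h10 h11
      have h5 : ∀ᶠ w in 𝓝[≠] (0 : ℂ), ∀ᶠ w' in 𝓝 w, w' ≠ 0 := by
        filter_upwards [h3] with w h6
        exact isOpen_ne.mem_nhds h6
      filter_upwards [h3, hSG, h4, h5, h1.filter_mono nhdsWithin_le_nhds] with w h6 h7 h8 h9 h10
      refine ⟨h6, h7, ?_⟩
      have h11 := eventually_nhdsWithin_iff.1 h8
      filter_upwards [h9, h11] with w' h12 h13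
      by_cases hw : w' = w
      · rw [hw]
        exact ⟨h6, h7, h10⟩
      · obtain ⟨h14, h15⟩ := h13 hw
        exact ⟨h12, h14, h15⟩
    obtain ⟨w, hw0, -, h3⟩ := h2.exists
    -- the coordinate is zero near `w⁻¹`
    have h4 : Tendsto (fun v : ℂ => v⁻¹) (𝓝 w⁻¹) (𝓝 w) := by
      have h5 := (tendsto_id (x := 𝓝 w⁻¹)).inv₀ (inv_ne_zero hw0)
      rwa [inv_inv] at h5
    refine coord_ne hG hj w⁻¹ (he w⁻¹) ?_
    filter_upwards [h4.eventually h3, he w⁻¹] with v h5 h6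
    obtain ⟨h7, ⟨h8, h9⟩, h10⟩ := h5
    obtain ⟨h11, h12⟩ := h6
    rw [inv_inv] at h9
    obtain ⟨c, hc, h13⟩ := rep_mk h9
    obtain ⟨c', hc', h14⟩ := rep_mk h12
    have h15 : c • S v⁻¹ = c' • φ w⁻¹ v := by rw [← h13, h14]
    have h16 := congrFun h15 j
    simp only [Pi.smul_apply, smul_eq_mul, h10, mul_zero] at h16
    exact (mul_eq_zero.1 h16.symm).resolve_left hc'
  obtain ⟨m, χ, hχ, hχ0, hχe⟩ := (show AnalyticAt ℂ (fun w => S w j) 0 from analyticAt_pi_iff.1 hS j).exists_eventuallyEq_pow_smul_nonzero_iff.2 hSj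
  -- a bound of the ratios near infinity
  have hinf : ∃ (ρ : ℝ) (C : ℝ), 0 < ρ ∧ ρ < 1 ∧ 0 ≤ C ∧ ∀ w : ℂ, w ≠ 0 → ‖w‖ < ρ → (∃ h : S w ≠ 0, G w⁻¹ = Projectivization.mk ℂ (S w) h) ∧ S w j ≠ 0 ∧
      ∀ i, ‖S w i / S w j‖ ≤ C * ‖w⁻¹‖ ^ m := by
    have h1 : ∀ᶠ w in 𝓝 (0 : ℂ), ‖S w‖ ≤ ‖S 0‖ + 1 :=
      (hS.continuousAt.norm.eventually_lt continuousAt_const (lt_add_one _)).mono fun w hw => hw.le
    have h2 : ∀ᶠ w in 𝓝 (0 : ℂ), ‖χ 0‖ / 2 < ‖χ w‖ :=
      hχ.continuousAt.norm.eventually_const_lt (half_lt_self (norm_pos_iff.2 hχ0))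
    obtain ⟨ρ, hρ, h3⟩ := Metric.eventually_nhds_iff_ball.1 (((eventually_nhdsWithin_iff.1 hSG).and hχe).and (h1.and h2))
    have hχp : 0 < ‖χ 0‖ := norm_pos_iff.2 hχ0
    refine ⟨min ρ (1 / 2), (‖S 0‖ + 1) / (‖χ 0‖ / 2), lt_min hρ (by norm_num), (min_le_right _ _).trans_lt (by norm_num), by positivity,
      fun w hw hwρ => ?_⟩
    obtain ⟨⟨h4, h5⟩, h6, h7⟩ := h3 w (by rw [mem_ball_zero_iff]; exact hwρ.trans_le (min_le_left _ _))
    rw [sub_zero, smul_eq_mul] at h5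
    have h8 : χ w ≠ 0 := by
      intro h9
      rw [h9, norm_zero] at h7
      linarith [norm_nonneg (χ 0)]
    have h9 : S w j ≠ 0 := by
      rw [h5]
      exact mul_ne_zero (pow_ne_zero _ hw) h8
    refine ⟨h4 hw, h9, fun i => ?_⟩
    rw [norm_div, h5, norm_mul, norm_pow, norm_inv, inv_pow]
    have h10 : ‖S w i‖ ≤ ‖S 0‖ + 1 := (norm_le_pi_norm (S w) i).trans h6
    have h11 : 0 < ‖w‖ ^ m := pow_pos (norm_pos_iff.2 hw) m
    rw [div_le_iff₀ (mul_pos h11 (norm_pos_iff.2 h8))]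
    calc ‖S w i‖ ≤ ‖S 0‖ + 1 := h10
      _ = (‖S 0‖ + 1) / (‖χ 0‖ / 2) * (‖χ 0‖ / 2) := by field_simp
      _ ≤ (‖S 0‖ + 1) / (‖χ 0‖ / 2) * ‖χ w‖ := by
          refine mul_le_mul_of_nonneg_left h7.le (by positivity)
      _ = (‖S 0‖ + 1) / (‖χ 0‖ / 2) * (‖w‖ ^ m)⁻¹ * (‖w‖ ^ m * ‖χ w‖) := by field_simp
  obtain ⟨ρ, C, hρ, hρ1, hC, hinf⟩ := hinf
  -- the zeros of the coordinate `j`
  set Z : Set ℂ := {w | (G w).rep j = 0} with hZ
  have hZiff : ∀ a, ∀ᶠ w in 𝓝 a, (w ∈ Z ↔ φ a w j = 0) := by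
    intro a
    filter_upwards [he a] with w h1
    obtain ⟨h2, h3⟩ := h1
    obtain ⟨c, hc, h4⟩ := rep_mk h3
    change (G w).rep j = 0 ↔ _
    rw [h4, Pi.smul_apply, smul_eq_mul, mul_eq_zero]
    exact ⟨fun h => h.resolve_left hc, Or.inr⟩
  have hZn : ∀ a, ∀ᶠ w in 𝓝[≠] a, w ∉ Z := by
    intro a
    have h1 : ∀ᶠ w in 𝓝[≠] a, w ≠ a := self_mem_nhdsWithin
    filter_upwards [(hZiff a).filter_mono nhdsWithin_le_nhds, (hψe a).filter_mono nhdsWithin_le_nhds, h1,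
      ((hψ a).continuousAt.eventually_ne (hψ0 a)).filter_mono nhdsWithin_le_nhds] with w h2 h3 h4 h5
    rw [h2, h3]
    exact mul_ne_zero (pow_ne_zero _ (sub_ne_zero.2 h4)) h5
  have hZb : Z ⊆ closedBall 0 (ρ⁻¹) := by
    intro w hw
    rw [mem_closedBall_zero_iff]
    by_contra hcon
    push Not at hcon
    have hw0 : 0 < ‖w‖ := (inv_pos.2 hρ).trans hcon
    have hw1 : w ≠ 0 := norm_pos_iff.1 hw0
    obtain ⟨⟨h1, h2⟩, h3, -⟩ := hinf w⁻¹ (inv_ne_zero hw1) (by rw [norm_inv]; exact inv_lt_of_inv_lt₀ hρ hcon)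
    rw [inv_inv] at h2
    obtain ⟨c, hc, h4⟩ := rep_mk h2
    have h5 : (G w).rep j = 0 := hw
    rw [h4, Pi.smul_apply, smul_eq_mul] at h5
    exact mul_ne_zero hc h3 h5
  have hZf : Z.Finite := by
    by_contra hcon
    obtain ⟨a, -, ha⟩ := Set.Infinite.exists_accPt_of_subset_isCompact hcon (isCompact_closedBall (0 : ℂ) ρ⁻¹) hZb
    rw [accPt_iff_frequently_nhdsNE] at ha
    exact ha ((hZn a).mono fun w hw h => hw h)
  set T : Finset ℂ := hZf.toFinset with hT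
  have hTmem : ∀ a, a ∈ T ↔ a ∈ Z := fun a => hZf.mem_toFinset
  -- the coordinates
  set Q : ℂ → ℂ := fun w => ∏ b ∈ T, (w - b) ^ n b with hQ
  set Q' : ℂ → ℂ → ℂ := fun a w => ∏ b ∈ T.erase a, (w - b) ^ n b with hQ'
  have hQQ' : ∀ a ∈ T, ∀ w, Q w = (w - a) ^ n a * Q' a w := fun a ha w => (Finset.mul_prod_erase T (fun b => (w - b) ^ n b) ha).symm
  have hQd : Differentiable ℂ Q := by
    have h1 : Differentiable ℂ fun w : ℂ => ∏ b ∈ T, (w - b) ^ n b := by fun_prop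
    exact h1
  have hQ'd : ∀ a, Differentiable ℂ (Q' a) := by
    intro a
    have h1 : Differentiable ℂ fun w : ℂ => ∏ b ∈ T.erase a, (w - b) ^ n b := by fun_prop
    exact h1
  set q : ℂ → Fin (N + 1) → ℂ := fun w => if w ∈ Z then (Q' w w / ψ w w) • φ w w else (Q w / (G w).rep j) • (G w).rep with hq
  have hqG : ∀ w, ∃ h : q w ≠ 0, G w = Projectivization.mk ℂ (q w) h := by
    intro w
    by_cases hw : w ∈ Z
    · have h1 : q w = (Q' w w / ψ w w) • φ w w := if_pos hw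
      obtain ⟨h2, h3⟩ := (he w).self_of_nhds
      have h4 : Q' w w / ψ w w ≠ 0 := by
        refine div_ne_zero ?_ (hψ0 w)
        refine Finset.prod_ne_zero_iff.2 fun b hb => pow_ne_zero _ (sub_ne_zero.2 ?_)
        exact (Finset.ne_of_mem_erase hb).symm
      have h5 : q w ≠ 0 := by
        rw [h1]
        exact smul_ne_zero h4 h2
      refine ⟨h5, ?_⟩
      rw [h3, Projectivization.mk_eq_mk_iff']
      refine ⟨(Q' w w / ψ w w)⁻¹, ?_⟩
      rw [h1, smul_smul, inv_mul_cancel₀ h4, one_smul]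
    · have h1 : q w = (Q w / (G w).rep j) • (G w).rep := if_neg hw
      have h4 : Q w / (G w).rep j ≠ 0 := by
        refine div_ne_zero ?_ hw
        refine Finset.prod_ne_zero_iff.2 fun b hb => pow_ne_zero _ (sub_ne_zero.2 ?_)
        rintro rfl
        exact hw ((hTmem _).1 hb)
      have h5 : q w ≠ 0 := by
        rw [h1]
        exact smul_ne_zero h4 (G w).rep_nonzero
      refine ⟨h5, ?_⟩
      conv_lhs => rw [← (G w).mk_rep]
      rw [Projectivization.mk_eq_mk_iff']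
      refine ⟨(Q w / (G w).rep j)⁻¹, ?_⟩
      rw [h1, smul_smul, inv_mul_cancel₀ h4, one_smul]
  have hqφ : ∀ w (v : Fin (N + 1) → ℂ) (hv : v ≠ 0), w ∉ Z → G w = Projectivization.mk ℂ v hv → q w = (Q w / v j) • v := by
    intro w v hv hw h1
    have h2 : q w = (Q w / (G w).rep j) • (G w).rep := if_neg hw
    obtain ⟨c, hc, h3⟩ := rep_mk h1
    rw [h2, h3, smul_smul]
    congr 1
    change Q w / (c * v j) * c = Q w / v j
    rw [div_mul_eq_mul_div, mul_comm c (v j), mul_div_mul_right _ _ hc]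
  have hqd : Differentiable ℂ q := by
    intro a
    by_cases ha : a ∈ Z
    · have h1 : DifferentiableAt ℂ (fun w => (Q' a w / ψ a w) • φ a w) a :=
        (((hQ'd a) a).div (hψ a).differentiableAt (hψ0 a)).smul (hφ a).differentiableAt
      refine h1.congr_of_eventuallyEq ?_
      have h2 := eventually_nhdsWithin_iff.1 (hZn a)
      filter_upwards [h2, he a, hψe a, (hψ a).continuousAt.eventually_ne (hψ0 a)] with w h3 h4 h5 h6
      by_cases hw : w = a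
      · subst hw
        exact if_pos ha
      · obtain ⟨h7, h8⟩ := h4
        rw [hqφ w _ h7 (h3 hw) h8, h5, hQQ' a ((hTmem a).2 ha), mul_div_mul_left _ _ (pow_ne_zero _ (sub_ne_zero.2 hw))]
    · have h0 : φ a a j ≠ 0 := fun h => ha ((hZiff a).self_of_nhds.2 h)
      have hc : DifferentiableAt ℂ (fun w => φ a w j) a := (analyticAt_pi_iff.1 (hφ a) j).differentiableAt
      have h1 : DifferentiableAt ℂ (fun w => (Q w / φ a w j) • φ a w) a :=
        ((hQd a).div hc h0).smul (hφ a).differentiableAt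
      refine h1.congr_of_eventuallyEq ?_
      filter_upwards [he a, hZiff a, hc.continuousAt.eventually_ne h0] with w h4 h5 h6
      obtain ⟨h7, h8⟩ := h4
      exact hqφ w _ h7 (fun h => h6 (h5.1 h)) h8
  -- the growth
  set d : ℕ := ∑ b ∈ T, n b with hd
  have hQgr : ∃ A : ℝ, 0 ≤ A ∧ ∀ w : ℂ, 1 ≤ ‖w‖ → ‖Q w‖ ≤ A * ‖w‖ ^ d := by
    refine ⟨∏ b ∈ T, (1 + ‖b‖) ^ n b, Finset.prod_nonneg fun b _ => by positivity, fun w hw => ?_⟩
    rw [hQ, hd]
    simp only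
    rw [norm_prod, ← Finset.prod_pow_eq_pow_sum, ← Finset.prod_mul_distrib]
    refine Finset.prod_le_prod (fun b _ => norm_nonneg _) fun b _ => ?_
    rw [norm_pow, ← mul_pow]
    refine pow_le_pow_left₀ (norm_nonneg _) ?_ _
    calc ‖w - b‖ ≤ ‖w‖ + ‖b‖ := norm_sub_le _ _
      _ ≤ (1 + ‖b‖) * ‖w‖ := by nlinarith [norm_nonneg b]
  obtain ⟨A, hA, hQgr⟩ := hQgr
  obtain ⟨B, hB⟩ : ∃ B : ℝ, ∀ w ∈ closedBall (0 : ℂ) ρ⁻¹, ‖q w‖ ≤ B := by
    obtain ⟨B, hB⟩ := (isCompact_closedBall (0 : ℂ) ρ⁻¹).exists_bound_of_continuousOn hqd.continuous.continuousOn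
    exact ⟨B, hB⟩
  have hgr : ∀ i w, 1 ≤ ‖w‖ → ‖q w i‖ ≤ (max B (A * C)) * ‖w‖ ^ (d + m) := by
    intro i w hw
    have h1 : (1 : ℝ) ≤ ‖w‖ ^ (d + m) := one_le_pow₀ hw
    rcases le_or_gt ‖w‖ ρ⁻¹ with h2 | h2
    · have h3 := hB w (by rw [mem_closedBall_zero_iff]; exact h2)
      have h4 : ‖q w i‖ ≤ B := (norm_le_pi_norm (q w) i).trans h3
      have h5 : 0 ≤ B := (norm_nonneg _).trans h3
      calc ‖q w i‖ ≤ B * 1 := by rw [mul_one]; exact h4
        _ ≤ (max B (A * C)) * ‖w‖ ^ (d + m) := mul_le_mul (le_max_left _ _) h1 zero_le_one (h5.trans (le_max_left _ _))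
    · have hw0 : 0 < ‖w‖ := (inv_pos.2 hρ).trans h2
      have hw1 : w ≠ 0 := norm_pos_iff.1 hw0
      obtain ⟨⟨h3, h4⟩, h5, h6⟩ := hinf w⁻¹ (inv_ne_zero hw1) (by rw [norm_inv]; exact inv_lt_of_inv_lt₀ hρ h2)
      rw [inv_inv] at h4 h6
      have h7 : w ∉ Z := by
        intro h8
        have h9 := hZb h8
        rw [mem_closedBall_zero_iff] at h9
        linarith
      rw [hqφ w _ h3 h7 h4]
      have h8 : ((Q w / S w⁻¹ j) • S w⁻¹) i = Q w * (S w⁻¹ i / S w⁻¹ j) := by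
        rw [Pi.smul_apply, smul_eq_mul]
        ring
      rw [h8, norm_mul]
      calc ‖Q w‖ * ‖S w⁻¹ i / S w⁻¹ j‖ ≤ (A * ‖w‖ ^ d) * (C * ‖w‖ ^ m) :=
            mul_le_mul (hQgr w hw) (h6 i) (norm_nonneg _) (by positivity)
        _ = (A * C) * ‖w‖ ^ (d + m) := by rw [pow_add]; ring
        _ ≤ (max B (A * C)) * ‖w‖ ^ (d + m) := mul_le_mul_of_nonneg_right (le_max_right _ _) (by positivity)
  choose p hp using fun i => poly_of_growth (k := fun w => q w i) (fun w => (differentiableAt_pi.1 (hqd w)) i) (hgr i)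
  refine ⟨p, fun w => ?_⟩
  have h1 : (fun i => (p i).eval w) = q w := by
    funext i
    exact (hp i w).symm
  rw [h1]
  exact hqG w

end Pool.Agent.H7.Per
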